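import Mathlib
import Pool.Agent.Lib.MP_f9aece_nt_gt.All
import Pool.Agent.Lib.MP_f9aece_nt_gt.G3
import Pool.Agent.Lib.MP_f9aece_nt_g2.All

/-!
Gaussian tails of the logarithm of the modulus of the randomly shifted zeta function, under the uniform
law and under the law biased by the square of the modulus.

Let `ω` be uniform on `[0, 1]`, `μ = zeta(1/2 + i x + i ω T)`, `L = log T`, `s = sqrt ((log L) / 2)` and
`Z` a standard Gaussian variable.  For `k = 0` and `k = 2` the law of `log |μ|` with density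
`|μ|^k / L^(k^2/4)` has, around `(k/2) log L`, the upper tail of `s Z` (for `k = 2` also the lower one) up
to a factor tending to one, uniformly for all real `V ≤ o(log L)`.  Consequently the truncated moments are
those of the Gaussian law, and the moments of `|μ|` of orders close to `0` and to `2` are `L^(β^2/4)`, up
to a factor close to one.
-/

set_option autoImplicit false

namespace Pool.Agent.Results.MP_f9aece_nt.GaussianTails

open MeasureTheory Complex

/-- the modulus of the shifted zeta function -/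
noncomputable def modulus (x T u : ℝ) : ℝ := ‖riemannZeta (1 / 2 + I * x + I * u * T)‖

/-- the expectation of `|μ|^k` on the event `|μ| > y` -/
noncomputable def upperPart (k : ℕ) (x T y : ℝ) : ℝ :=
  ∫ u in {u : ℝ | u ∈ Set.Icc (0 : ℝ) 1 ∧ y < modulus x T u}, modulus x T u ^ k

/-- the expectation of `|μ|^2` on the event `|μ| ≤ y` -/
noncomputable def lowerPart (x T y : ℝ) : ℝ :=
  ∫ u in {u : ℝ | u ∈ Set.Icc (0 : ℝ) 1 ∧ modulus x T u ≤ y}, modulus x T u ^ 2

/-- the moment of order `β` of the modulus -/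
noncomputable def moment (β x T : ℝ) : ℝ := ∫ u in (0 : ℝ)..1, modulus x T u ^ β

/-- the expectation of `|μ|^k min(|μ| / A, Y)^β` -/
noncomputable def truncatedMoment (k : ℕ) (A β x T Y : ℝ) : ℝ :=
  ∫ u in (0 : ℝ)..1, modulus x T u ^ k * min (modulus x T u / A) Y ^ β

/-- the expectation of `|μ|^2 min(A / |μ|, Y)^β` -/
noncomputable def invertedMoment (A β x T Y : ℝ) : ℝ :=
  ∫ u in (0 : ℝ)..1, modulus x T u ^ 2 * min (A / modulus x T u) Y ^ β

/-- the density of the standard Gaussian law -/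
noncomputable def gaussianDensity (t : ℝ) : ℝ :=
  (Real.sqrt (2 * Real.pi))⁻¹ * Real.exp (-(t ^ 2 / 2))

/-- the tail of the standard Gaussian law -/
noncomputable def gaussianTail (y : ℝ) : ℝ := ∫ t in Set.Ioi y, gaussianDensity t

/-- the moment of order `β` of `e^(s Z)` truncated at `Y`, for `Z` standard Gaussian -/
noncomputable def gaussianMoment (β s Y : ℝ) : ℝ :=
  ∫ t : ℝ, min (Real.exp (s * t)) Y ^ β * gaussianDensity t

private theorem tail_eq (y : ℝ) : gaussianTail y = Pool.Agent.Lib.GT.tl y := by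
  unfold gaussianTail Pool.Agent.Lib.GT.tl
  rw [Pool.Agent.Lib.GT.G1.meas_eq]
  exact integral_congr_ae (Filter.Eventually.of_forall fun t => (Pool.Agent.Lib.GT.G1.pdf_eq t).symm)

private theorem gauss_eq (β s Y : ℝ) : gaussianMoment β s Y = Pool.Agent.Lib.G2.gm s Y β := by
  unfold Pool.Agent.Lib.G2.gm
  rw [ProbabilityTheory.integral_gaussianReal_eq_integral_smul one_ne_zero]
  refine integral_congr_ae (Filter.Eventually.of_forall fun t => ?_)
  beta_reduce
  rw [Pool.Agent.Lib.GT.G1.pdf_eq, smul_eq_mul, mul_comm]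
  rfl

private theorem interval_eq (f : ℝ → ℝ) : ∫ u in (0 : ℝ)..1, f u = ∫ u in Set.Icc (0 : ℝ) 1, f u := by
  rw [intervalIntegral.integral_of_le zero_le_one, ← integral_Icc_eq_integral_Ioc]

theorem result : ∀ ε : ℝ, 0 < ε → ∃ δ T₀ : ℝ, 0 < δ ∧ ∀ x T : ℝ, T₀ ≤ T → |x| ≤ T ^ (9 / 10 : ℝ) →
    (∀ k : ℕ, k = 0 ∨ k = 2 →
      (∀ V : ℝ, V ≤ δ * Real.log (Real.log T) →
        |upperPart k x T (Real.log T ^ ((k : ℝ) / 2) * Real.exp V)
            - Real.log T ^ ((k : ℝ) ^ 2 / 4) * gaussianTail (V / Real.sqrt (Real.log (Real.log T) / 2))|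
          ≤ ε * (Real.log T ^ ((k : ℝ) ^ 2 / 4)
            * gaussianTail (V / Real.sqrt (Real.log (Real.log T) / 2)))) ∧
      (∀ d β : ℝ, d ≤ δ → 0 < β →
        |truncatedMoment k (Real.log T ^ ((k : ℝ) / 2)) β x T (Real.log T ^ d)
            - Real.log T ^ ((k : ℝ) ^ 2 / 4)
              * gaussianMoment β (Real.sqrt (Real.log (Real.log T) / 2)) (Real.log T ^ d)|
          ≤ ε * (Real.log T ^ ((k : ℝ) ^ 2 / 4)
              * gaussianMoment β (Real.sqrt (Real.log (Real.log T) / 2)) (Real.log T ^ d)))) ∧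
    (∀ V : ℝ, V ≤ δ * Real.log (Real.log T) →
      |lowerPart x T (Real.log T * Real.exp (-V))
          - Real.log T * gaussianTail (V / Real.sqrt (Real.log (Real.log T) / 2))|
        ≤ ε * (Real.log T * gaussianTail (V / Real.sqrt (Real.log (Real.log T) / 2)))) ∧
    (∀ d β : ℝ, d ≤ δ → 0 < β →
      |invertedMoment (Real.log T) β x T (Real.log T ^ d)
          - Real.log T * gaussianMoment β (Real.sqrt (Real.log (Real.log T) / 2)) (Real.log T ^ d)|
        ≤ ε * (Real.log T
          * gaussianMoment β (Real.sqrt (Real.log (Real.log T) / 2)) (Real.log T ^ d))) ∧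
    (∀ β : ℝ, 0 < β → β ≤ δ ∨ |β - 2| ≤ δ →
      |moment β x T - Real.log T ^ (β ^ 2 / 4)| ≤ ε * Real.log T ^ (β ^ 2 / 4)) := by
  intro ε hε
  obtain ⟨δ, T₀, hδ, h⟩ := Pool.Agent.Lib.G2.all ε hε
  refine ⟨δ, T₀, hδ, fun x T hT hx => ?_⟩
  obtain ⟨h1, h2, h3, h4⟩ := h x T hT hx
  refine ⟨fun k hk => ⟨fun V hV => ?_, fun d β hd hβ => ?_⟩, fun V hV => ?_, fun d β hd hβ => ?_, ?_⟩
  · rw [tail_eq]
    exact (h1 k hk).1 V hV
  · rw [gauss_eq]
    unfold truncatedMoment
    rw [interval_eq]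
    exact (h1 k hk).2 d β hd hβ
  · rw [tail_eq]
    exact h2 V hV
  · rw [gauss_eq]
    unfold invertedMoment
    rw [interval_eq]
    exact h3 d β hd hβ
  · exact h4

end Pool.Agent.Results.MP_f9aece_nt.GaussianTails
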