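import Mathlib
import Pool.Agent.Lib.MP_f9aece_nt_rm.All

/-!
# All real moments of the partial sums of zeta on the critical line, with the constant

For every real `β > 0` the moment of order `β` of the partial sum `∑_{n ≤ N} n^{-s}` at the randomly
shifted point `s = 1/2 + i x + i ω T`, `ω` uniform on `[0, 1]`, is asymptotic to
`a(β) γ(β) (log N)^{β²/4}` when `N → ∞` and `log N / log T → 0`, uniformly in all real `x`. Here
`a(β)` is the arithmetic factor of Keating and Snaith and `γ(β)` is the limit of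
`L^{-β²/4} E|c_0 + ... + c_L|^β`, where the `c_n` are the coefficients of
`exp (∑_{j ≥ 1} z_j X^j / √j)` and the `z_j` are independent standard complex Gaussian variables.
-/

set_option autoImplicit false

namespace Pool.Agent.Results.MP_f9aece_nt.PartialSumsConstant

open MeasureTheory ProbabilityTheory Filter Topology Complex

/-- The partial sum of length `N` of the Dirichlet series of zeta. -/
noncomputable def partialSum (N : ℕ) (s : ℂ) : ℂ := ∑ n ∈ Finset.Icc 1 N, (n : ℂ) ^ (-s)

/-- The moment `E|S_N(1/2 + i x + i ω T)|^β` with `ω` uniform on `[0, 1]`. -/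
noncomputable def partialMoment (β x T : ℝ) (N : ℕ) : ℝ :=
  ∫ u in (0 : ℝ)..1, ‖partialSum N (1 / 2 + I * x + I * u * T)‖ ^ β

/-- The coefficients `Γ(k + i) / (Γ(k) i!)` of the power series of `(1 - z)^(-k)`. -/
noncomputable def coef (k : ℝ) (i : ℕ) : ℝ := ∏ l ∈ Finset.range i, (k + l) / (l + 1)

/-- The arithmetic factor `∏_p (1 - 1/p)^(β²/4) ∑_i (Γ(i + β/2) / (Γ(β/2) i!))² p^(-i)`. -/
noncomputable def arith (β : ℝ) : ℝ :=
  ∏' p : Nat.Primes, ((1 - ((p : ℕ) : ℝ)⁻¹) ^ (β ^ 2 / 4)
    * ∑' i : ℕ, coef (β / 2) i ^ 2 * (((p : ℕ) : ℝ)⁻¹) ^ i)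

/-- The standard complex Gaussian measure (`E|z|^2 = 1`, real and imaginary part independent). -/
noncomputable def stdGaussian : Measure ℂ :=
  ((gaussianReal 0 (1 / 2)).prod (gaussianReal 0 (1 / 2))).map fun p => (p.1 : ℂ) + I * p.2

/-- The law of a sequence of independent standard complex Gaussian variables. -/
noncomputable def gaussianSeq : Measure (ℕ → ℂ) := Measure.infinitePi fun _ => stdGaussian

/-- The coefficients `c_n` of `exp (∑_(j ≥ 1) z_j X^j / √j)`: `c_0 = 1` and
`(n + 1) c_(n + 1) = ∑_(0 ≤ j ≤ n) √(j + 1) z_(j + 1) c_(n - j)`. -/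
noncomputable def expCoef (z : ℕ → ℂ) : ℕ → ℂ
  | 0 => 1
  | n + 1 => (∑ j : Fin (n + 1), (Real.sqrt ((j : ℝ) + 1) : ℂ) * z (j + 1) * expCoef z (n - j))
      / (n + 1)

/-- **Main result.** For every real `β > 0` the moments of order `β` of the partial sums of zeta on
the critical line are asymptotic to `arith β * γ * (log N)^(β²/4)`, where `γ > 0` is the limit of
the normalised moments of order `β` of `c_0 + ... + c_L`. -/
theorem result (β : ℝ) (hβ : 0 < β) : ∃ γ : ℝ, 0 < γ ∧
    Tendsto (fun L : ℕ => (∫ z, ‖∑ n ∈ Finset.range (L + 1), expCoef z n‖ ^ β ∂gaussianSeq)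
      / (L : ℝ) ^ (β ^ 2 / 4)) atTop (𝓝 γ) ∧
    0 < arith β ∧ ∀ ε : ℝ, 0 < ε → ∃ C : ℝ, 0 < C ∧
    ∀ (x T : ℝ) (N : ℕ), C ≤ N → (N : ℝ) ^ C ≤ T →
    |partialMoment β x T N - arith β * γ * Real.log N ^ (β ^ 2 / 4)|
      ≤ ε * Real.log N ^ (β ^ 2 / 4) := by
  obtain ⟨g, hg, hG, h⟩ := Pool.Agent.Lib.RM.xFinal (β / 2) (by positivity)
  have e1 : 2 * (β / 2) = β := by ring
  have e2 : (β / 2) ^ 2 = β ^ 2 / 4 := by ring
  have hak : Pool.Agent.Lib.NL.ak (β / 2) = arith β := by
    unfold Pool.Agent.Lib.NL.ak arith Pool.Agent.Lib.NL.Fi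
    rw [e2]
    rfl
  have hpos : 0 < arith β := by
    rw [← hak]
    obtain ⟨N0, hN0⟩ := exists_nat_ge (β / 2)
    exact Pool.Agent.Lib.NL.ak_pos (N := N0 + 1) (by omega) (by positivity) (by push_cast; linarith)
  refine ⟨g, hg, ?_, hpos, ?_⟩
  · unfold Pool.Agent.Lib.RM.GLm at hG
    rw [e1, e2] at hG
    have hm : gaussianSeq = Pool.Agent.Lib.RM.Gm := rfl
    rw [hm]
    refine hG.congr fun L => ?_
    congr 1
    refine integral_congr_ae (Eventually.of_forall fun z => ?_)
    simp only
    rw [Pool.Agent.Lib.RM.rec (expCoef z) z (by rw [expCoef]) (fun n => ?_) L]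
    rw [expCoef, Finset.sum_range (n := n + 1)
      (fun j => (Real.sqrt ((j : ℝ) + 1) : ℂ) * z (j + 1) * expCoef z (n - j)),
      mul_div_cancel₀]
    exact_mod_cast Nat.succ_ne_zero n
  · intro ε hε
    obtain ⟨C, hC, h⟩ := h ε hε
    refine ⟨max (Real.exp C) (max C 1), by positivity, fun x T N hN hT => ?_⟩
    have hN1 : Real.exp C ≤ N := (le_max_left _ _).trans hN
    have hN2 : (1 : ℝ) ≤ N := ((le_max_right _ _).trans (le_max_right _ _)).trans hN
    have hN0 : (0 : ℝ) < N := by linarith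
    have hlogN : C ≤ Real.log N := by rwa [Real.le_log_iff_exp_le hN0]
    have hT1 : (N : ℝ) ^ C ≤ T :=
      (Real.rpow_le_rpow_of_exponent_le hN2 ((le_max_left C 1).trans (le_max_right _ _))).trans hT
    have hT2 : 1 ≤ T := (Real.one_le_rpow hN2 hC.le).trans hT1
    have hT0 : 0 < T := by linarith
    have hlogT : C * Real.log N ≤ Real.log T := by
      rw [← Real.log_rpow hN0]
      exact Real.log_le_log (by positivity) hT1
    have h1 := h (Real.log N) T hlogN hT2 hlogT x
    rw [e1, e2, hak] at h1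
    have e3 : partialMoment β x T N = T⁻¹ * ∫ t in x..(x + T),
        ‖Pool.Agent.Lib.MS.ZS (fun _ => 1) (Real.log N) t‖ ^ β := by
      have e4 := intervalIntegral.integral_comp_mul_add
        (fun t : ℝ => ‖Pool.Agent.Lib.MS.ZS (fun _ => 1) (Real.log N) t‖ ^ β) (a := 0) (b := 1)
        hT0.ne' x
      simp only [mul_zero, zero_add, mul_one, smul_eq_mul] at e4
      rw [add_comm x T, ← e4]
      unfold partialMoment
      refine intervalIntegral.integral_congr fun u _ => ?_
      have e5 : partialSum N (1 / 2 + I * x + I * u * T)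
          = Pool.Agent.Lib.MS.ZS (fun _ => 1) (Real.log N) (T * u + x) := by
        unfold partialSum Pool.Agent.Lib.MS.ZS
        rw [Real.exp_log hN0, Nat.floor_natCast]
        refine Finset.sum_congr rfl fun n _ => ?_
        rw [one_mul]
        congr 1
        push_cast
        ring
      simp only [e5]
    rw [e3]
    exact h1

end Pool.Agent.Results.MP_f9aece_nt.PartialSumsConstant
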