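import Mathlib
import Pool.Agent.Lib.MP_f9aece_nt_mp.AllP
import Pool.Agent.Lib.MP_f9aece_nt_mq.AllF

/-!
All moments of the randomly shifted zeta function averaged over mesoscopic windows.

The kernel is the sum of a band-limited function and a step function, with integral one.  For
every real `β > 0` (for every real `0 < β < 4` if there is a step part) the `β`-th moment of the
average of `zeta(1/2 + i x + i ω T)` over a window of length `H` is asymptotic to `c H^(-β^2/4)`,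
`c > 0`, when `H → 0` and `H log T → ∞`, uniformly in all real `x` (in `|x| ≤ T` if there is a
step part).  The plain average over `[0, H]` is the case of the indicator function of `[0, 1]`.

For the plain average the range `0 < β < 4` cannot be extended: the fourth moment is asymptotic to
`8 H^(-4) log (H log T)`, and for no real `β ≥ 4` is there a law `c H^(-β^2/4)`.
-/

set_option autoImplicit false

namespace Pool.Agent.Results.MP_f9aece_nt.WindowMoments

open MeasureTheory Complex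

/-- the average of `zeta(1/2 + i (y + H v))` over `v` against the kernel `φ` -/
noncomputable def windowAverage (φ : ℝ → ℂ) (H y : ℝ) : ℂ :=
  ∫ v : ℝ, riemannZeta (1 / 2 + I * ((y + H * v : ℝ) : ℂ)) * φ v

/-- the moment of order `β` of the averaged randomly shifted zeta function -/
noncomputable def windowMoment (φ : ℝ → ℂ) (β x T H : ℝ) : ℝ :=
  ∫ u in (0 : ℝ)..1, ‖windowAverage φ H (x + u * T)‖ ^ β

/-- `φ₀` plus the step function with the values `a j` on the intervals `[b j, d j]`, `j < n` -/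
noncomputable def kernel (φ₀ : ℝ → ℂ) (n : ℕ) (a : ℕ → ℂ) (b d : ℕ → ℝ) (v : ℝ) : ℂ :=
  φ₀ v + ∑ j ∈ Finset.range n, a j * (if b j ≤ v ∧ v ≤ d j then 1 else 0)

/-- the indicator function of `[0, 1]`, the kernel of the plain average -/
noncomputable def plain (v : ℝ) : ℂ := if 0 ≤ v ∧ v ≤ 1 then 1 else 0

private theorem moment_eq (φ : ℝ → ℂ) (f : ℝ → ℂ) (β x T H : ℝ) (hT : T ≠ 0)
    (hf : ∀ y, windowAverage φ H y = f y) :
    windowMoment φ β x T H = Pool.Agent.Lib.MP2.Av β x T f := by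
  unfold windowMoment Pool.Agent.Lib.MP2.Av
  have e3 := intervalIntegral.integral_comp_mul_add (fun t : ℝ => ‖f t‖ ^ β) (a := 0) (b := 1) hT x
  simp only [mul_zero, zero_add, mul_one, smul_eq_mul] at e3
  rw [add_comm x T, ← e3]
  refine intervalIntegral.integral_congr fun u _ => ?_
  rw [hf, add_comm (T * u) x, mul_comm T u]

private theorem plain_eq (H y : ℝ) : windowAverage plain H y = Pool.Agent.Lib.MP2.PA H y := by
  unfold windowAverage Pool.Agent.Lib.MP2.PA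
  rw [intervalIntegral.integral_of_le zero_le_one, ← integral_Icc_eq_integral_Ioc,
    ← integral_indicator measurableSet_Icc]
  refine integral_congr_ae (Filter.Eventually.of_forall fun v => ?_)
  by_cases hv : 0 ≤ v ∧ v ≤ 1
  · have : v ∈ Set.Icc (0 : ℝ) 1 := hv
    simp [plain, hv, this]
  · have : v ∉ Set.Icc (0 : ℝ) 1 := hv
    simp only [plain, hv, if_false, mul_zero, Set.indicator_of_notMem this]

theorem result : (∀ φ₀ : ℝ → ℂ, Integrable (fun v : ℝ => ((1 + |v| : ℝ) : ℂ) * φ₀ v) →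
    (∃ R : ℝ, ∀ r : ℝ, R ≤ |r| → ∫ v : ℝ, φ₀ v * cexp (-(I * ((r * v : ℝ) : ℂ))) = 0) →
    ∀ (n : ℕ) (a : ℕ → ℂ) (b d : ℕ → ℝ), (∀ j, j < n → b j < d j) →
    ∫ v : ℝ, kernel φ₀ n a b d v = 1 →
    ∀ β : ℝ, 0 < β → (n = 0 ∨ β < 4) → ∃ c : ℝ, 0 < c ∧ ∀ ε : ℝ, 0 < ε → ∃ C : ℝ, 0 < C ∧
    ∀ x T H : ℝ, 1 ≤ T → 0 < H → C * H ≤ 1 → C ≤ H * Real.log T → (n = 0 ∨ |x| ≤ T) →
    |windowMoment (kernel φ₀ n a b d) β x T H - c * H ^ (-(β ^ 2 / 4))| ≤ ε * H ^ (-(β ^ 2 / 4))) ∧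
    (∀ ε : ℝ, 0 < ε → ∃ C : ℝ, 0 < C ∧
    ∀ x T H : ℝ, 1 ≤ T → 0 < H → C * H ≤ 1 → C ≤ H * Real.log T → |x| ≤ T →
    |windowMoment plain 4 x T H - 8 * (H ^ (-4 : ℝ) * Real.log (H * Real.log T))|
      ≤ ε * (H ^ (-4 : ℝ) * Real.log (H * Real.log T))) ∧
    (∀ β : ℝ, 4 ≤ β → ¬ ∃ c : ℝ, ∀ ε : ℝ, 0 < ε → ∃ C : ℝ, 0 < C ∧
    ∀ x T H : ℝ, 1 ≤ T → 0 < H → C * H ≤ 1 → C ≤ H * Real.log T → |x| ≤ T →
    |windowMoment plain β x T H - c * H ^ (-(β ^ 2 / 4))| ≤ ε * H ^ (-(β ^ 2 / 4))) := by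
  refine ⟨?_, ?_, ?_⟩
  · intro φ₀ h1 h3 n a b d hbd h2 β hβ hnβ
    obtain ⟨R, hR⟩ := h3
    obtain ⟨c, hc, h⟩ := Pool.Agent.Lib.MP2.xGeneral φ₀ R h1 hR n a b d hbd h2 β hβ hnβ
    refine ⟨c, hc, fun ε hε => ?_⟩
    obtain ⟨C, hC, h⟩ := h ε hε
    refine ⟨C, hC, fun x T H hT hH hCH hHT hx => ?_⟩
    rw [moment_eq (kernel φ₀ n a b d)
      (Pool.Agent.Lib.MS.ZW (Pool.Agent.Lib.MP2.ker φ₀ n a b d) H) β x T H (by positivity)
      fun y => rfl]
    exact h H T x hH hCH hT hHT hx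
  · intro ε hε
    obtain ⟨C, hC, h⟩ := Pool.Agent.Lib.MP4.xCrit ε hε
    refine ⟨C, hC, fun x T H hT hH hCH hHT hx => ?_⟩
    rw [moment_eq plain (Pool.Agent.Lib.MP2.PA H) 4 x T H (by positivity) (plain_eq H), ← mul_assoc]
    exact h H T x hH hCH hHT hx
  · rintro β hβ ⟨c, hc⟩
    refine Pool.Agent.Lib.MP4.xSharp β hβ ⟨c, fun ε hε => ?_⟩
    obtain ⟨C, hC, h⟩ := hc ε hε
    refine ⟨C, hC, fun H T x hH hCH hHT hx => ?_⟩
    have hT : 1 ≤ T := by
      have hT0 : 0 ≤ T := (abs_nonneg x).trans hx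
      by_contra h1
      have h2 : Real.log T ≤ 0 := Real.log_nonpos hT0 (not_le.1 h1).le
      nlinarith
    have h4 := h x T H hT hH hCH hHT hx
    rw [moment_eq plain (Pool.Agent.Lib.MP2.PA H) β x T H (by positivity) (plain_eq H)] at h4
    exact h4

end Pool.Agent.Results.MP_f9aece_nt.WindowMoments
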